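import Pool.Agent.Lib_helper44.G5.Defs

/-!
# Block EVP (helper85): Euler factors as convergent series
-/

namespace Pool.Agent.G5

open Complex MeasureTheory Filter Topology

open Pool.Agent.G4 (par Ix ev pairs RSB IsKer D hatw smo)

variable {m : ℕ}

theorem evp_step {h : PowerSeries ℂ} {z s : ℂ} (a : ℂ)
    (hs : HasSum (fun k => PowerSeries.coeff k h * z ^ k) s) :
    HasSum (fun k => PowerSeries.coeff k (h * (1 - PowerSeries.C a * PowerSeries.X)) * z ^ k)
      (s * (1 - a * z)) := by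
  have h1 : HasSum (fun k => PowerSeries.coeff k (h * PowerSeries.X) * z ^ k) (s * z) := by
    have h2 : HasSum (fun k => PowerSeries.coeff (k + 1) (h * PowerSeries.X) * z ^ (k + 1))
        (s * z) := by
      refine (hs.mul_right z).congr_fun ?_
      intro k
      rw [PowerSeries.coeff_succ_mul_X, pow_succ]
      ring
    have h3 := (hasSum_nat_add_iff (f := fun k =>
      PowerSeries.coeff k (h * PowerSeries.X) * z ^ k) 1).1 h2
    simpa using h3
  have h4 := hs.sub (h1.mul_left a)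
  have h5 : s - a * (s * z) = s * (1 - a * z) := by ring
  rw [h5] at h4
  refine h4.congr_fun ?_
  intro k
  have h6 : h * (1 - PowerSeries.C a * PowerSeries.X) =
      h - PowerSeries.C a * (h * PowerSeries.X) := by ring
  rw [h6, map_sub, PowerSeries.coeff_C_mul]
  ring

theorem evp_prod {ι : Type} (t : Finset ι) (α : ι → ℂ) {h : PowerSeries ℂ} {z s : ℂ}
    (hs : HasSum (fun k => PowerSeries.coeff k h * z ^ k) s) :
    HasSum (fun k => PowerSeries.coeff k
      (h * ∏ j ∈ t, (1 - PowerSeries.C (α j) * PowerSeries.X)) * z ^ k)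
      (s * ∏ j ∈ t, (1 - α j * z)) := by
  classical
  induction t using Finset.induction_on with
  | empty => simpa using hs
  | insert i t hi ih =>
    have h1 := evp_step (α i) ih
    rw [Finset.prod_insert hi, Finset.prod_insert hi]
    have e1 : h * ((1 - PowerSeries.C (α i) * PowerSeries.X) *
        ∏ j ∈ t, (1 - PowerSeries.C (α j) * PowerSeries.X)) =
        h * (∏ j ∈ t, (1 - PowerSeries.C (α j) * PowerSeries.X)) *
          (1 - PowerSeries.C (α i) * PowerSeries.X) := by ring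
    have e2 : s * ((1 - α i * z) * ∏ j ∈ t, (1 - α j * z)) =
        s * (∏ j ∈ t, (1 - α j * z)) * (1 - α i * z) := by ring
    rw [e1, e2]
    exact h1

/-- the coefficients at prime powers -/
theorem evp_coeff_bound (S : Sys m) : ∃ C : ℝ, 0 ≤ C ∧ ∀ n : ℕ, 1 ≤ n → ‖S.a n‖ ^ 2 ≤ C * n := by
  obtain ⟨C, hC⟩ := S.rs
  have hC0 : 0 ≤ C := by
    have := hC 1
    have h2 : 0 ≤ ∑ n ∈ Finset.Icc 1 1, ‖S.a n‖ ^ 2 := Finset.sum_nonneg fun _ _ => by positivity
    have h3 : C * ((1 : ℕ) : ℝ) = C := by simp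
    linarith
  refine ⟨C, hC0, fun n hn => le_trans ?_ (hC n)⟩
  exact Finset.single_le_sum (f := fun n => ‖S.a n‖ ^ 2) (fun _ _ => by positivity)
    (Finset.mem_Icc.2 ⟨hn, le_rfl⟩)

theorem evp_summable (S : Sys m) {p : ℕ} (hp : p.Prime) {z : ℂ} (hz : ‖z‖ < (√(p : ℝ))⁻¹) :
    Summable (fun k : ℕ => S.a (p ^ k) * z ^ k) := by
  obtain ⟨C, hC0, hC⟩ := evp_coeff_bound S
  have hp0 : (0 : ℝ) < p := by exact_mod_cast hp.pos
  have hsp : 0 < √(p : ℝ) := Real.sqrt_pos.2 hp0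
  have hr : √(p : ℝ) * ‖z‖ < 1 := by
    have h1 := mul_lt_mul_of_pos_left hz hsp
    rwa [mul_inv_cancel₀ hsp.ne'] at h1
  have hr0 : 0 ≤ √(p : ℝ) * ‖z‖ := by positivity
  refine Summable.of_norm_bounded
    (g := fun k : ℕ => √C * (√(p : ℝ) * ‖z‖) ^ k)
    ((summable_geometric_of_lt_one hr0 hr).mul_left _) ?_
  intro k
  have h1 : ‖S.a (p ^ k)‖ ^ 2 ≤ C * (p : ℝ) ^ k := by
    have := hC (p ^ k) (Nat.one_le_pow _ _ hp.pos)
    simpa using this
  have h2 : ‖S.a (p ^ k)‖ ≤ √C * √(p : ℝ) ^ k := by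
    have h3 : (√C * √(p : ℝ) ^ k) ^ 2 = C * (p : ℝ) ^ k := by
      rw [mul_pow, Real.sq_sqrt hC0, ← pow_mul, mul_comm k 2, pow_mul, Real.sq_sqrt hp0.le]
    have h4 : 0 ≤ √C * √(p : ℝ) ^ k := by positivity
    rw [← h3] at h1
    exact (sq_le_sq₀ (norm_nonneg _) h4).1 h1
  rw [norm_mul, norm_pow, mul_pow, ← mul_assoc]
  exact mul_le_mul_of_nonneg_right h2 (by positivity)

/-- EVP: the Euler factor as a convergent series -/
theorem euler_hasSum_pr (S : Sys m) {p : ℕ} (hp : p.Prime) {z : ℂ} (hz : ‖z‖ < (√(p : ℝ))⁻¹) :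
    (∏ j, (1 - S.α p j * z)) ≠ 0 ∧
      HasSum (fun k : ℕ => S.a (p ^ k) * z ^ k) (∏ j, (1 - S.α p j * z))⁻¹ := by
  have h1 := (evp_summable S hp hz).hasSum
  have h2 : HasSum (fun k => PowerSeries.coeff k (PowerSeries.mk fun k => S.a (p ^ k)) * z ^ k)
      (∑' k : ℕ, S.a (p ^ k) * z ^ k) := by
    simpa [PowerSeries.coeff_mk] using h1
  have h3 := evp_prod Finset.univ (fun j => S.α p j) h2
  rw [S.euler p hp] at h3
  have h4 : HasSum (fun k => PowerSeries.coeff k (1 : PowerSeries ℂ) * z ^ k) 1 := by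
    have := hasSum_single (f := fun k => PowerSeries.coeff k (1 : PowerSeries ℂ) * z ^ k) 0
      (by
        intro k hk
        simp [PowerSeries.coeff_one, hk])
    simpa using this
  have h5 := h3.unique h4
  have h6 : (∏ j, (1 - S.α p j * z)) ≠ 0 := by
    intro h0
    rw [h0, mul_zero] at h5
    exact zero_ne_one h5
  refine ⟨h6, ?_⟩
  rw [← eq_inv_of_mul_eq_one_left h5]
  exact h1

/-- ALP -/
theorem alpha_le_pr (S : Sys m) {p : ℕ} (hp : p.Prime) (j : Fin m) : ‖S.α p j‖ ≤ √(p : ℝ) := by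
  by_contra hcon
  push Not at hcon
  have hp0 : (0 : ℝ) < p := by exact_mod_cast hp.pos
  have hsp : 0 < √(p : ℝ) := Real.sqrt_pos.2 hp0
  have hne : S.α p j ≠ 0 := by
    intro h0
    rw [h0, norm_zero] at hcon
    linarith
  have hz : ‖(S.α p j)⁻¹‖ < (√(p : ℝ))⁻¹ := by
    rw [norm_inv]
    exact inv_strictAnti₀ hsp hcon
  have h1 := (euler_hasSum_pr S hp hz).1
  apply h1
  refine Finset.prod_eq_zero (Finset.mem_univ j) ?_
  rw [mul_inv_cancel₀ hne, sub_self]

end Pool.Agent.G5
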