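import Pool.Agent.Lib_helper18.G5.LOC
import Pool.Agent.Lib_helper18.G5.PSUM
import Pool.Agent.Lib_helper44.G5.Defs
import Pool.Agent.Lib_helper85.G5.EVP

/-!
# Block MBCF (helper85): the coefficients of the logarithm of the Euler factors
-/

namespace Pool.Agent.G5

open Complex MeasureTheory Filter Topology

open Pool.Agent.G4 (par Ix ev pairs RSB IsKer D hatw smo)

variable {m : ℕ}

theorem mbcf_rescale (r : ℂ) {f : ℕ → ℂ} (α : Fin m → ℂ)
    (h : PowerSeries.mk f * ∏ j, (1 - PowerSeries.C (α j) * PowerSeries.X) = 1) :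
    PowerSeries.mk (fun i => f i * r ^ i) *
      ∏ j, (1 - PowerSeries.C (α j * r) * PowerSeries.X) = 1 := by
  have h1 := congrArg (PowerSeries.rescale r) h
  rw [map_mul, map_one, map_prod] at h1
  have e1 : PowerSeries.rescale r (PowerSeries.mk f) = PowerSeries.mk (fun i => f i * r ^ i) := by
    ext n
    rw [PowerSeries.coeff_rescale, PowerSeries.coeff_mk, PowerSeries.coeff_mk, mul_comm]
  have e2 : ∀ j : Fin m, PowerSeries.rescale r (1 - PowerSeries.C (α j) * PowerSeries.X) =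
      1 - PowerSeries.C (α j * r) * PowerSeries.X := by
    intro j
    ext n
    rw [PowerSeries.coeff_rescale]
    rcases n with _ | n
    · simp
    · rw [map_sub, map_sub, PowerSeries.coeff_succ_mul_X, PowerSeries.coeff_succ_mul_X,
        PowerSeries.coeff_one, if_neg (Nat.succ_ne_zero n), PowerSeries.coeff_C,
        PowerSeries.coeff_C]
      rcases n with _ | n
      · simp [mul_comm]
      · simp
  rw [e1] at h1
  rw [Finset.prod_congr rfl fun j _ => e2 j] at h1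
  exact h1

/-- the radius -/
noncomputable def mbcf_r (η : ℝ) (p : ℕ) : ℝ := (p : ℝ) ^ (-(1 / 2 + η))

theorem mbcf_r_nonneg (η : ℝ) (p : ℕ) : 0 ≤ mbcf_r η p := Real.rpow_nonneg (Nat.cast_nonneg _) _

theorem mbcf_norm_z (S : Sys m) {p : ℕ} (hp : p.Prime) {η : ℝ} (hη : 0 ≤ η) (j : Fin m) :
    ‖S.α p j * (mbcf_r η p : ℂ)‖ ≤ 1 := by
  have hp0 : (0 : ℝ) < p := by exact_mod_cast hp.pos
  have hp1 : (1 : ℝ) ≤ p := by exact_mod_cast hp.one_le
  rw [norm_mul, Complex.norm_real, Real.norm_of_nonneg (mbcf_r_nonneg η p)]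
  calc ‖S.α p j‖ * mbcf_r η p ≤ √(p : ℝ) * mbcf_r η p :=
        mul_le_mul_of_nonneg_right (alpha_le_pr S hp j) (mbcf_r_nonneg η p)
    _ = (p : ℝ) ^ (-η) := by
        rw [mbcf_r, Real.sqrt_eq_rpow, ← Real.rpow_add hp0]
        congr 1
        ring
    _ ≤ 1 := Real.rpow_le_one_of_one_le_of_nonpos hp1 (by linarith)

theorem mbcf_Ap (S : Sys m) {p : ℕ} (hp : p.Prime) (η : ℝ) :
    ∑ i ∈ Finset.Icc 1 m, ‖S.a (p ^ i) * (mbcf_r η p : ℂ) ^ i‖ ^ 2 = Ap S η p := by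
  have hp0 : (0 : ℝ) < p := by exact_mod_cast hp.pos
  refine Finset.sum_congr rfl fun i _ => ?_
  rw [norm_mul, norm_pow, Complex.norm_real, Real.norm_of_nonneg (mbcf_r_nonneg η p), mul_pow]
  congr 1
  rw [mbcf_r, ← Real.rpow_natCast ((p : ℝ) ^ (-(1 / 2 + η))) i, ← Real.rpow_mul hp0.le,
    ← Real.rpow_natCast _ 2, ← Real.rpow_mul hp0.le]
  congr 1
  push_cast
  ring

theorem mbcf_cf (S : Sys m) {p : ℕ} (hp : p.Prime) (η : ℝ) {k : ℕ} (hk : 1 ≤ k) :
    ‖cf S η p k‖ ^ 2 * (k : ℝ) ^ 2 = ‖∑ j, (S.α p j * (mbcf_r η p : ℂ)) ^ k‖ ^ 2 := by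
  have hp0 : (0 : ℝ) < p := by exact_mod_cast hp.pos
  have hk0 : (k : ℝ) ≠ 0 := by
    have : (0 : ℝ) < k := by exact_mod_cast hk
    exact this.ne'
  have e1 : ‖(p : ℂ) ^ (-((k : ℂ) * (1 / 2 + η)))‖ = mbcf_r η p ^ k := by
    rw [Complex.norm_natCast_cpow_of_pos hp.pos, mbcf_r, ← Real.rpow_natCast _ k,
      ← Real.rpow_mul hp0.le]
    congr 1
    have : ((k : ℂ) * (1 / 2 + η)) = (((k : ℝ) * (1 / 2 + η) : ℝ) : ℂ) := by push_cast; ring
    rw [this, ← Complex.ofReal_neg, Complex.ofReal_re]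
    ring
  have e2 : ∑ j, (S.α p j * (mbcf_r η p : ℂ)) ^ k = (∑ j, S.α p j ^ k) * (mbcf_r η p : ℂ) ^ k := by
    rw [Finset.sum_mul]
    exact Finset.sum_congr rfl fun j _ => by rw [mul_pow]
  rw [e2, cf, norm_mul, norm_mul, norm_div, e1, norm_pow, Complex.norm_real,
    Real.norm_of_nonneg (mbcf_r_nonneg η p), Complex.norm_natCast]
  field_simp

theorem mbcf_sum_inv_sq (K : ℕ) : ∑ k ∈ Finset.Icc 1 K, 1 / (k : ℝ) ^ 2 ≤ 2 := by
  have h : ∀ K : ℕ, ∑ k ∈ Finset.Icc 1 (K + 1), 1 / (k : ℝ) ^ 2 ≤ 2 - 1 / ((K : ℝ) + 1) := by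
    intro K
    induction K with
    | zero => simp; norm_num
    | succ K ih =>
      rw [Finset.sum_Icc_succ_top (by omega)]
      have h1 : 1 / (((K + 1 + 1 : ℕ) : ℝ)) ^ 2 ≤ 1 / ((K : ℝ) + 1) - 1 / ((K : ℝ) + 1 + 1) := by
        have hK : (0 : ℝ) ≤ K := Nat.cast_nonneg K
        rw [div_sub_div _ _ (by positivity) (by positivity), div_le_div_iff₀ (by positivity)
          (by positivity)]
        push_cast
        nlinarith
      push_cast at h1 ih ⊢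
      linarith
  rcases K with _ | K
  · simp
  · have h1 := h K
    have h2 : (0 : ℝ) ≤ 1 / ((K : ℝ) + 1) := by positivity
    linarith

theorem mbcf_Ap_nonneg (S : Sys m) (η : ℝ) (p : ℕ) : 0 ≤ Ap S η p :=
  Finset.sum_nonneg fun i _ => mul_nonneg (by positivity) (Real.rpow_nonneg (Nat.cast_nonneg _) _)

theorem mbcf_Ap_le (S : Sys m) {p : ℕ} (hp : p.Prime) {η : ℝ} (hη : 0 ≤ η) :
    Ap S η p ≤ Ap S 0 p := by
  have hp1 : (1 : ℝ) ≤ p := by exact_mod_cast hp.one_le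
  refine Finset.sum_le_sum fun i _ => ?_
  refine mul_le_mul_of_nonneg_left ?_ (by positivity)
  refine Real.rpow_le_rpow_of_exponent_le hp1 ?_
  have hi : (0 : ℝ) ≤ i := Nat.cast_nonneg i
  nlinarith [mul_nonneg hi hη]

/-- MBCF -/
theorem mb_cf_pr (S : Sys m) : ∃ C₁ C₀ : ℝ, 0 ≤ C₁ ∧ 0 < C₀ ∧ ∀ (σ : ℕ → ℝ),
    (∀ p, σ p = 1 ∨ σ p = -1) → ∀ η : ℝ, 0 ≤ η → ∀ P K : ℕ, m ≤ K →
      MB (fun p k => σ p * cf S η p k) (fun p => C₁ * Ap S η p) P K C₀ ∧
      ∑ p ∈ Nat.primesBelow (P + 1), Ap S η p ≤ C₀ * VF (fun p k => σ p * cf S η p k) P K ∧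
      VF (fun p k => σ p * cf S η p k) P K ≤ C₀ * ∑ p ∈ Nat.primesBelow (P + 1), Ap S 0 p := by
  obtain ⟨C, hC0, hC⟩ := loc_bounds_pr m
  obtain ⟨Cp, hCp0, hCp1, hCp2⟩ := psum_pr S
  set M : ℝ := (m : ℝ) ^ 2 with hM
  have hM0 : 0 ≤ M := by positivity
  set C₀ : ℝ := C * Cp + C * C * M + C * M + 2 * C + 1 with hC₀
  have t1 : 0 ≤ C * Cp := mul_nonneg hC0 hCp0
  have t2 : 0 ≤ C * C * M := mul_nonneg (mul_nonneg hC0 hC0) hM0
  have t3 : 0 ≤ C * M := mul_nonneg hC0 hM0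
  have hC₀pos : 0 < C₀ := by linarith
  refine ⟨C, C₀, hC0, hC₀pos, fun σ hσ η hη P K hmK => ?_⟩
  have hnorm : ∀ p k, ‖(σ p : ℂ) * cf S η p k‖ ^ 2 = ‖cf S η p k‖ ^ 2 := by
    intro p k
    rw [norm_mul, Complex.norm_real]
    rcases hσ p with h | h <;> simp [h]
  have hloc : ∀ p : ℕ, p.Prime → (∀ k : ℕ, 1 ≤ k → ‖cf S η p k‖ ^ 2 * (k : ℝ) ^ 2 ≤ C * Ap S η p) ∧
      Ap S η p ≤ C * ∑ k ∈ Finset.Icc 1 m, ‖cf S η p k‖ ^ 2 * (k : ℝ) ^ 2 := by
    intro p hp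
    have h1 := hC (fun j => S.α p j * (mbcf_r η p : ℂ)) (fun i => S.a (p ^ i) * (mbcf_r η p : ℂ) ^ i)
      (mbcf_norm_z S hp hη) (mbcf_rescale _ _ (S.euler p hp))
    rw [mbcf_Ap S hp η] at h1
    refine ⟨fun k hk => ?_, ?_⟩
    · rw [mbcf_cf S hp η hk]
      exact h1.1 k hk
    · rw [Finset.sum_congr rfl fun k hk => mbcf_cf S hp η (Finset.mem_Icc.1 hk).1]
      exact h1.2
  have hV : ∀ p : ℕ, p.Prime → Ap S η p ≤
      C * M * ∑ k ∈ Finset.Icc 1 K, ‖(σ p : ℂ) * cf S η p k‖ ^ 2 := by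
    intro p hp
    refine (hloc p hp).2.trans ?_
    rw [mul_assoc]
    refine mul_le_mul_of_nonneg_left ?_ hC0
    rw [Finset.mul_sum]
    refine (Finset.sum_le_sum (g := fun k => M * ‖(σ p : ℂ) * cf S η p k‖ ^ 2) fun k hk => ?_).trans ?_
    · rw [hnorm, mul_comm]
      refine mul_le_mul_of_nonneg_right ?_ (by positivity)
      have hk2 : (k : ℝ) ≤ m := by exact_mod_cast (Finset.mem_Icc.1 hk).2
      rw [hM]
      exact pow_le_pow_left₀ (Nat.cast_nonneg k) hk2 2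
    · exact Finset.sum_le_sum_of_subset_of_nonneg (Finset.Icc_subset_Icc_right hmK)
        fun _ _ _ => mul_nonneg hM0 (by positivity)
  have hprime : ∀ p ∈ Nat.primesBelow (P + 1), p.Prime := fun p hp => Nat.prime_of_mem_primesBelow hp
  refine ⟨⟨?_, ?_, ?_, ?_, ?_⟩, ?_, ?_⟩
  · exact fun p => mul_nonneg hC0 (mbcf_Ap_nonneg S η p)
  · intro p hp k hk
    have hk0 : (0 : ℝ) < (k : ℝ) ^ 2 := by
      have : (0 : ℝ) < k := by exact_mod_cast hk
      positivity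
    rw [hnorm, le_div_iff₀ hk0]
    exact (hloc p hp).1 k hk
  · intro p hp
    have h1 : C * Ap S η p ≤ C * Cp :=
      mul_le_mul_of_nonneg_left ((mbcf_Ap_le S hp hη).trans (hCp1 p hp)) hC0
    show C * Ap S η p ≤ C₀
    linarith
  · intro k hk y
    have h1 : ∑ p ∈ Nat.primesBelow (P + 1), C * Ap S η p / (1 + (k * Real.log p - y) ^ 2) ≤
        C * ∑ p ∈ Nat.primesBelow (P + 1), Ap S 0 p / (1 + (k * Real.log p - y) ^ 2) := by
      rw [Finset.mul_sum]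
      refine Finset.sum_le_sum fun p hp => ?_
      rw [mul_div_assoc]
      refine mul_le_mul_of_nonneg_left ?_ hC0
      exact div_le_div_of_nonneg_right (mbcf_Ap_le S (hprime p hp) hη) (by positivity)
    have h2 := mul_le_mul_of_nonneg_left (hCp2 P k y hk) hC0
    show ∑ p ∈ Nat.primesBelow (P + 1), C * Ap S η p / (1 + (k * Real.log p - y) ^ 2) ≤ C₀
    linarith
  · intro p hp
    set T : ℝ := ∑ k ∈ Finset.Icc 1 K, ‖(σ p : ℂ) * cf S η p k‖ ^ 2 with hT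
    have hT0 : 0 ≤ T := Finset.sum_nonneg fun _ _ => by positivity
    have h1 : C * Ap S η p ≤ C * (C * M * T) := mul_le_mul_of_nonneg_left (hV p hp) hC0
    have h2 : C * (C * M * T) = C * C * M * T := by ring
    have h3 : C * C * M * T ≤ C₀ * T := mul_le_mul_of_nonneg_right (by linarith) hT0
    show C * Ap S η p ≤ C₀ * T
    linarith
  · have h1 : ∑ p ∈ Nat.primesBelow (P + 1), Ap S η p ≤
        C * M * VF (fun p k => (σ p : ℂ) * cf S η p k) P K := by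
      rw [VF, Finset.mul_sum]
      exact Finset.sum_le_sum fun p hp => hV p (hprime p hp)
    have hVF0 : 0 ≤ VF (fun p k => (σ p : ℂ) * cf S η p k) P K :=
      Finset.sum_nonneg fun _ _ => Finset.sum_nonneg fun _ _ => by positivity
    exact h1.trans (mul_le_mul_of_nonneg_right (by linarith) hVF0)
  · have h1 : VF (fun p k => (σ p : ℂ) * cf S η p k) P K ≤
        ∑ p ∈ Nat.primesBelow (P + 1), 2 * C * Ap S 0 p := by
      rw [VF]
      refine Finset.sum_le_sum fun p hp => ?_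
      have hpp := hprime p hp
      have h2 : ∀ k ∈ Finset.Icc 1 K, ‖(σ p : ℂ) * cf S η p k‖ ^ 2 ≤
          (C * Ap S η p) * (1 / (k : ℝ) ^ 2) := by
        intro k hk
        have hk1 := (Finset.mem_Icc.1 hk).1
        have hk0 : (0 : ℝ) < (k : ℝ) ^ 2 := by
          have : (0 : ℝ) < k := by exact_mod_cast hk1
          positivity
        rw [hnorm, mul_one_div, le_div_iff₀ hk0]
        exact (hloc p hpp).1 k hk1
      refine (Finset.sum_le_sum h2).trans ?_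
      rw [← Finset.mul_sum]
      have h3 : 0 ≤ C * Ap S η p := mul_nonneg hC0 (mbcf_Ap_nonneg S η p)
      have h4 := mul_le_mul_of_nonneg_left (mbcf_sum_inv_sq K) h3
      have h5 := mul_le_mul_of_nonneg_left (mbcf_Ap_le S hpp hη) hC0
      linarith
    rw [← Finset.mul_sum] at h1
    have h2 : 0 ≤ ∑ p ∈ Nat.primesBelow (P + 1), Ap S 0 p :=
      Finset.sum_nonneg fun p _ => mbcf_Ap_nonneg S 0 p
    exact h1.trans (mul_le_mul_of_nonneg_right (by linarith) h2)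

end Pool.Agent.G5
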