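import Pool.Agent.Lib_helper18.G5.LOCH
import Pool.Agent.Lib_helper44.G5.Defs
import Pool.Agent.Lib_helper85.G5.MBCF

/-!
# Block CCO (helper85): the convergent case
-/

namespace Pool.Agent.G5

open Complex MeasureTheory Filter Topology

open Pool.Agent.G4 (par Ix ev pairs RSB IsKer D hatw smo)

variable {m : ℕ}

/-- the density -/
noncomputable def cco_g (S : Sys m) (B : Finset ℕ) (n : ℕ) : ℝ := ‖aB S B n‖ ^ 2 / n

theorem cco_nonneg (S : Sys m) (B : Finset ℕ) (n : ℕ) : 0 ≤ cco_g S B n := by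
  unfold cco_g
  positivity

theorem cco_one (S : Sys m) {B : Finset ℕ} (hB : ∀ p ∈ B, p.Prime) : cco_g S B 1 = 1 := by
  have h : ∀ p ∈ B, ¬ p ∣ 1 := fun p hp hd => (hB p hp).one_lt.ne' (Nat.dvd_one.1 hd)
  rw [cco_g, aB, if_pos h, S.a_one]
  simp

theorem cco_mul (S : Sys m) {B : Finset ℕ} (hB : ∀ p ∈ B, p.Prime) {k n : ℕ} (h : k.Coprime n) :
    cco_g S B (k * n) = cco_g S B k * cco_g S B n := by
  have e : aB S B (k * n) = aB S B k * aB S B n := by
    by_cases h1 : ∀ p ∈ B, ¬ p ∣ k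
    · by_cases h2 : ∀ p ∈ B, ¬ p ∣ n
      · have h3 : ∀ p ∈ B, ¬ p ∣ k * n := fun p hp hd =>
          ((hB p hp).dvd_mul.1 hd).elim (h1 p hp) (h2 p hp)
        rw [aB, aB, aB, if_pos h1, if_pos h2, if_pos h3, S.a_mul k n h]
      · have h3 : ¬ ∀ p ∈ B, ¬ p ∣ k * n := by
          intro h3
          exact h2 fun p hp hd => h3 p hp (hd.mul_left k)
        rw [aB, aB, aB, if_neg h2, if_neg h3, mul_zero]
    · have h3 : ¬ ∀ p ∈ B, ¬ p ∣ k * n := by
        intro h3
        exact h1 fun p hp hd => h3 p hp (hd.mul_right n)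
      rw [aB, aB, aB, if_neg h1, if_neg h3, zero_mul]
  rw [cco_g, cco_g, cco_g, e, norm_mul, mul_pow]
  push_cast
  rw [mul_div_mul_comm]

theorem cco_pow_mem (S : Sys m) {B : Finset ℕ} {p : ℕ} (hp : p ∈ B) (k : ℕ) :
    cco_g S B (p ^ (k + 1)) = 0 := by
  have h3 : ¬ ∀ q ∈ B, ¬ q ∣ p ^ (k + 1) := fun h => h p hp (dvd_pow_self p (Nat.succ_ne_zero k))
  rw [cco_g, aB, if_neg h3]
  simp

theorem cco_pow_not_mem (S : Sys m) {B : Finset ℕ} (hB : ∀ p ∈ B, p.Prime) {p : ℕ} (hpp : p.Prime)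
    (hp : p ∉ B) (k : ℕ) :
    cco_g S B (p ^ k) = ‖S.a (p ^ k) * (mbcf_r 0 p : ℂ) ^ k‖ ^ 2 := by
  have h3 : ∀ q ∈ B, ¬ q ∣ p ^ k := by
    intro q hq hd
    have h1 := (hB q hq).dvd_of_dvd_pow hd
    rw [(Nat.prime_dvd_prime_iff_eq (hB q hq) hpp).1 h1] at hq
    exact hp hq
  have hp0 : (0 : ℝ) < p := by exact_mod_cast hpp.pos
  rw [cco_g, aB, if_pos h3, norm_mul, norm_pow, Complex.norm_real,
    Real.norm_of_nonneg (mbcf_r_nonneg 0 p), mul_pow, div_eq_mul_inv]
  congr 1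
  have h4 : mbcf_r 0 p ^ 2 = (p : ℝ)⁻¹ := by
    rw [mbcf_r, ← Real.rpow_natCast _ 2, ← Real.rpow_mul hp0.le]
    have : (-(1 / 2 + 0) * ((2 : ℕ) : ℝ) : ℝ) = -1 := by norm_num
    rw [this, Real.rpow_neg_one]
  rw [← pow_mul, mul_comm k 2, pow_mul, h4]
  push_cast
  rw [inv_pow]

theorem cco_sum_le (S : Sys m) (h : Summable fun p : Nat.Primes => Ap S 0 p)
    (s : Finset Nat.Primes) : ∑ q ∈ s, Ap S 0 q ≤ ∑' q : Nat.Primes, Ap S 0 q :=
  sum_le_hasSum s (fun q _ => mbcf_Ap_nonneg S 0 q) h.hasSum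

/-- CCO: the convergent case -/
theorem conv_case_pr (S : Sys m) (h : Summable fun p : Nat.Primes => Ap S 0 p) :
    ∃ B : Finset ℕ, (∀ p ∈ B, p.Prime) ∧ Summable fun n : ℕ => ‖aB S B n‖ ^ 2 / n := by
  obtain ⟨C, c, hC0, hc0, hloc⟩ := loc_tail_pr m
  have hfin : {p : Nat.Primes | ¬ Ap S 0 p ≤ c}.Finite := by
    have h1 := h.tendsto_cofinite_zero.eventually_le_const hc0
    exact h1
  let B : Finset ℕ := hfin.toFinset.image fun p : Nat.Primes => (p : ℕ)
  have hB : ∀ p ∈ B, p.Prime := by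
    intro p hp
    obtain ⟨q, _, rfl⟩ := Finset.mem_image.1 hp
    exact q.2
  have hBc : ∀ p : ℕ, p.Prime → p ∉ B → Ap S 0 p ≤ c := by
    intro p hp hpB
    by_contra hcon
    exact hpB (Finset.mem_image.2 ⟨⟨p, hp⟩, hfin.mem_toFinset.2 hcon, rfl⟩)
  refine ⟨B, hB, ?_⟩
  change Summable (cco_g S B)
  -- the local factors
  have hlocal : ∀ p : ℕ, p.Prime → Summable (fun k : ℕ => cco_g S B (p ^ k)) ∧
      ∑' k : ℕ, cco_g S B (p ^ k) ≤ 1 + C * Ap S 0 p := by
    intro p hp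
    have hAp := mbcf_Ap_nonneg S 0 p
    by_cases hpB : p ∈ B
    · have hs : Summable (fun k : ℕ => cco_g S B (p ^ k)) := by
        refine (summable_nat_add_iff 1).1 ?_
        refine summable_zero.congr fun k => ?_
        rw [cco_pow_mem S hpB k]
      refine ⟨hs, ?_⟩
      rw [hs.tsum_eq_zero_add]
      have h0 : ∑' k : ℕ, cco_g S B (p ^ (k + 1)) = 0 := by
        rw [tsum_congr fun k => cco_pow_mem S hpB k, tsum_zero]
      rw [h0, pow_zero, cco_one S hB]
      have := mul_nonneg hC0 hAp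
      linarith
    · have h1 := hloc (fun j => S.α p j * (mbcf_r 0 p : ℂ))
        (fun i => S.a (p ^ i) * (mbcf_r 0 p : ℂ) ^ i) (mbcf_norm_z S hp le_rfl)
        (mbcf_rescale _ _ (S.euler p hp)) (by rw [mbcf_Ap S hp 0]; exact hBc p hp hpB)
      rw [mbcf_Ap S hp 0] at h1
      have hs : Summable (fun k : ℕ => cco_g S B (p ^ k)) :=
        h1.1.congr fun k => (cco_pow_not_mem S hB hp hpB k).symm
      refine ⟨hs, ?_⟩
      rw [hs.tsum_eq_zero_add, pow_zero, cco_one S hB,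
        tsum_congr fun k => cco_pow_not_mem S hB hp hpB (k + 1)]
      linarith [h1.2]
  -- the bound
  set T : ℝ := ∑' p : Nat.Primes, Ap S 0 p with hT
  refine summable_of_sum_range_le (c := Real.exp (C * T)) (cco_nonneg S B) fun N => ?_
  have hE := EulerProduct.summable_and_hasSum_smoothNumbers_prod_primesBelow_tsum
    (f := cco_g S B) (cco_one S hB) (fun {k n} hkn => cco_mul S hB hkn)
    (fun {p} hp => by
      refine (hlocal p hp).1.congr fun k => ?_
      rw [Real.norm_of_nonneg (cco_nonneg S B _)]) N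
  have hE2 := hE.2
  have hE3 : HasSum (Set.indicator (N.smoothNumbers) (cco_g S B))
      (∏ p ∈ N.primesBelow, ∑' n : ℕ, cco_g S B (p ^ n)) :=
    (hasSum_subtype_iff_indicator (f := cco_g S B) (s := (N.smoothNumbers : Set ℕ))).1 hE2
  have h1 : ∑ i ∈ Finset.range N, cco_g S B i =
      ∑ i ∈ Finset.range N, Set.indicator (N.smoothNumbers) (cco_g S B) i := by
    refine Finset.sum_congr rfl fun i hi => ?_
    rcases Nat.eq_zero_or_pos i with h0 | h0
    · subst h0
      have : cco_g S B 0 = 0 := by rw [cco_g]; simp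
      rw [this]
      rw [Set.indicator_apply]
      split_ifs
      · exact this.symm
      · rfl
    · have hmem : i ∈ N.smoothNumbers := by
        refine ⟨h0.ne', fun p hp => ?_⟩
        have h2 := Nat.le_of_dvd h0 (Nat.dvd_of_mem_primeFactorsList hp)
        exact lt_of_le_of_lt h2 (Finset.mem_range.1 hi)
      rw [Set.indicator_of_mem hmem]
  rw [h1]
  refine (sum_le_hasSum (Finset.range N) (fun i _ => ?_) hE3).trans ?_
  · exact Set.indicator_nonneg (fun i _ => cco_nonneg S B i) i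
  · have h2 : ∏ p ∈ N.primesBelow, ∑' n : ℕ, cco_g S B (p ^ n) ≤
        ∏ p ∈ N.primesBelow, Real.exp (C * Ap S 0 p) := by
      refine Finset.prod_le_prod (fun p _ => tsum_nonneg fun n => cco_nonneg S B _) fun p hp => ?_
      refine (hlocal p (Nat.prime_of_mem_primesBelow hp)).2.trans ?_
      rw [add_comm]
      exact Real.add_one_le_exp _
    refine h2.trans ?_
    rw [← Real.exp_sum, ← Finset.mul_sum]
    refine Real.exp_le_exp.2 (mul_le_mul_of_nonneg_left ?_ hC0)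
    have h3 : ∑ p ∈ N.primesBelow, Ap S 0 p =
        ∑ q ∈ N.primesBelow.attach.image (fun p => (⟨p.1, Nat.prime_of_mem_primesBelow p.2⟩ :
          Nat.Primes)), Ap S 0 q := by
      rw [Finset.sum_image]
      · exact (Finset.sum_attach N.primesBelow (fun p => Ap S 0 p)).symm
      · intro x _ y _ hxy
        exact Subtype.ext (congrArg (fun q : Nat.Primes => (q : ℕ)) hxy)
    rw [h3]
    exact cco_sum_le S h _

end Pool.Agent.G5
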